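import Pool.Agent.Helper99.SZ.Stmts3
import Pool.Agent.Helper16.BK.EMB3

/-! Either the conjugates are bounded by the discriminant, or two roots are close (module HDI). -/

set_option autoImplicit false

namespace Pool.Helper99.SZ

open NumberField

theorem hdi_log24 : 4 * Real.log 24 + 2 * Real.log 2 ≤ 40 := by
  have h1 : Real.log 24 ≤ 24 / 3 := by
    have h := Real.add_one_le_exp (7 : ℝ)
    rw [Real.log_le_iff_le_exp (by norm_num)]
    have h2 : Real.exp (24 / 3 : ℝ) = Real.exp 4 * Real.exp 4 := by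
      rw [← Real.exp_add]
      norm_num
    have h3 := Real.add_one_le_exp (4 : ℝ)
    rw [h2]
    nlinarith
  have h2 : Real.log 2 ≤ 1 := by
    have := Real.log_two_lt_d9
    linarith
  linarith

theorem hdi_real (d0 d1 d2 S Δ : ℝ) (h0 : 0 < d0) (h1 : d1 = d0 + d2) (h02 : d0 ≤ d2)
    (hΔ : 0 ≤ Δ) (hsum : Real.log (d0 ^ 2) + Real.log (d1 ^ 2) + Real.log (d2 ^ 2) = Δ)
    (hS : S = |Real.log (d0 ^ 2)| ∨ S = |Real.log (d1 ^ 2)| ∨ S = |Real.log (d2 ^ 2)|) :
    S ≤ 40 * (1 + Δ) ∨ (d0 ^ 2 ≠ d1 ^ 2 ∧ |d2 ^ 2 / d1 ^ 2 - 1| ≤ Real.exp (-(S / 2))) := by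
  have h2 : 0 < d2 := lt_of_lt_of_le h0 h02
  have hd1 : 0 < d1 := by linarith
  rw [Real.log_pow, Real.log_pow, Real.log_pow] at hsum hS
  push_cast at hsum hS
  obtain ⟨A, hA⟩ : ∃ A, A = Real.log d0 := ⟨_, rfl⟩
  obtain ⟨L, hL⟩ : ∃ L, L = Real.log d1 := ⟨_, rfl⟩
  obtain ⟨M, hM⟩ : ∃ M, M = Real.log d2 := ⟨_, rfl⟩
  obtain ⟨l2, hl2⟩ : ∃ l2, l2 = Real.log 2 := ⟨_, rfl⟩
  have hl2' : 0 < l2 := by rw [hl2]; exact Real.log_pos (by norm_num)
  have k1 : A ≤ M := by
    rw [hA, hM]
    exact Real.log_le_log h0 h02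
  have k2 : M ≤ L := by
    rw [hM, hL]
    exact Real.log_le_log h2 (by linarith)
  have k3 : L ≤ l2 + M := by
    rw [hL, hl2, hM, ← Real.log_mul (by norm_num) h2.ne']
    exact Real.log_le_log hd1 (by linarith)
  rw [← hA, ← hL, ← hM] at hsum hS
  have k4 : 0 ≤ L := by linarith
  have k5 : S ≤ 4 * L + 2 * l2 := by
    rcases hS with h | h | h
    · rw [h]
      exact abs_le.2 ⟨by linarith, by linarith⟩
    · rw [h]
      exact abs_le.2 ⟨by linarith, by linarith⟩
    · rw [h]
      exact abs_le.2 ⟨by linarith, by linarith⟩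
  obtain ⟨l24, hl24⟩ : ∃ l24, l24 = Real.log 24 := ⟨_, rfl⟩
  have k6 : 3 * l2 ≤ l24 := by
    have : 3 * l2 = Real.log 8 := by
      rw [hl2, show (8 : ℝ) = 2 ^ 3 by norm_num, Real.log_pow]
      norm_num
    rw [this, hl24]
    exact Real.log_le_log (by norm_num) (by norm_num)
  have k7 := hdi_log24
  rw [← hl24, ← hl2] at k7
  rcases le_or_gt L (Δ / 2 + l24) with hc | hc
  · left
    linarith
  · right
    refine ⟨?_, ?_⟩
    · intro h
      have : d0 = d1 := by
        have := (pow_left_inj₀ h0.le hd1.le two_ne_zero).1 h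
        exact this
      linarith
    · have e1 : |d2 ^ 2 / d1 ^ 2 - 1| ≤ 2 * d0 / d1 := by
        have e2 : d2 ^ 2 / d1 ^ 2 - 1 = -((d1 - d2) * (d1 + d2) / d1 ^ 2) := by
          field_simp
          ring
        rw [e2, abs_neg, abs_of_nonneg (by
          refine div_nonneg (mul_nonneg ?_ ?_) (by positivity)
          · linarith
          · linarith), div_le_div_iff₀ (by positivity) hd1]
        have e3 : (d1 - d2) = d0 := by linarith
        rw [e3]
        have e4 : d0 * (d1 + d2) * d1 ≤ d0 * (2 * d1) * d1 := by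
          refine mul_le_mul_of_nonneg_right ?_ hd1.le
          exact mul_le_mul_of_nonneg_left (by linarith) h0.le
        calc d0 * (d1 + d2) * d1 ≤ d0 * (2 * d1) * d1 := e4
          _ = 2 * d0 * d1 ^ 2 := by ring
      refine e1.trans ?_
      have e5 : 2 * d0 / d1 = Real.exp (l2 + A - L) := by
        rw [Real.exp_sub, Real.exp_add, hl2, hA, hL, Real.exp_log (by norm_num),
          Real.exp_log h0, Real.exp_log hd1]
      rw [e5]
      exact Real.exp_le_exp.2 (by linarith)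

theorem hdi_cplx (v ρ S Δ : ℝ) (hv : 0 < v) (hρ : v ≤ ρ) (hΔ : 0 ≤ Δ)
    (hsum : Real.log ((2 * v) ^ 2) + Real.log (ρ ^ 2) + Real.log (ρ ^ 2) = Δ)
    (hS : S = |Real.log ((2 * v) ^ 2)| ∨ S = |Real.log (ρ ^ 2)|) :
    S ≤ 40 * (1 + Δ) ∨ ((2 * v) ^ 2 ≠ ρ ^ 2 ∧ 4 * v / ρ ≤ Real.exp (-(S / 2))) := by
  have hρ0 : 0 < ρ := lt_of_lt_of_le hv hρ
  have hne : (2 * v) ^ 2 = ρ ^ 2 → Real.log ((2 * v) ^ 2) = Real.log (ρ ^ 2) := fun h => by rw [h]
  rw [Real.log_pow, Real.log_pow, Real.log_mul (by norm_num) hv.ne'] at hsum hS hne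
  push_cast at hsum hS hne
  obtain ⟨A, hA⟩ : ∃ A, A = Real.log v := ⟨_, rfl⟩
  obtain ⟨E, hE⟩ : ∃ E, E = Real.log ρ := ⟨_, rfl⟩
  obtain ⟨l2, hl2⟩ : ∃ l2, l2 = Real.log 2 := ⟨_, rfl⟩
  have hl2' : 0 < l2 := by rw [hl2]; exact Real.log_pos (by norm_num)
  have hl2'' : l2 ≤ 1 := by
    rw [hl2]
    have := Real.log_two_lt_d9
    linarith
  have k1 : A ≤ E := by
    rw [hA, hE]
    exact Real.log_le_log hv hρ
  rw [← hA, ← hE, ← hl2] at hsum hS hne
  rcases le_or_gt E (Δ + 10) with hc | hc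
  · left
    rcases hS with h | h
    · rw [h]
      exact abs_le.2 ⟨by linarith, by linarith⟩
    · rw [h]
      exact abs_le.2 ⟨by linarith, by linarith⟩
  · right
    refine ⟨?_, ?_⟩
    · intro h
      have := hne h
      linarith
    · have k5 : S ≤ 4 * E - Δ := by
        rcases hS with h | h
        · rw [h]
          exact abs_le.2 ⟨by linarith, by linarith⟩
        · rw [h]
          exact abs_le.2 ⟨by linarith, by linarith⟩
      have e5 : 4 * v / ρ = Real.exp (l2 + l2 + A - E) := by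
        rw [Real.exp_sub, Real.exp_add, Real.exp_add, hl2, hA, hE, Real.exp_log (by norm_num),
          Real.exp_log hv, Real.exp_log hρ0]
        norm_num
      rw [e5]
      exact Real.exp_le_exp.2 (by linarith)

theorem hdi_btw (b : Fin 3 → ℝ) (a m c : Fin 3) (h1 : Function.Injective ![a, m, c])
    (h2 : Function.Injective ![c, m, a]) (ha : b a ≤ b m) (hc : b m ≤ b c) :
    ∃ p : Fin 3 → Fin 3, Function.Injective p ∧
      |b (p 0) - b (p 2)| = |b (p 1) - b (p 2)| + |b (p 0) - b (p 1)| ∧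
      |b (p 1) - b (p 2)| ≤ |b (p 0) - b (p 1)| := by
  rcases le_total (b c - b m) (b m - b a) with h | h
  · refine ⟨![a, m, c], h1, ?_⟩
    change |b a - b c| = |b m - b c| + |b a - b m| ∧ |b m - b c| ≤ |b a - b m|
    rw [abs_of_nonpos (by linarith : b a - b c ≤ 0), abs_of_nonpos (by linarith : b m - b c ≤ 0),
      abs_of_nonpos (by linarith : b a - b m ≤ 0)]
    constructor <;> linarith
  · refine ⟨![c, m, a], h2, ?_⟩
    change |b c - b a| = |b m - b a| + |b c - b m| ∧ |b m - b a| ≤ |b c - b m|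
    rw [abs_of_nonneg (by linarith : 0 ≤ b c - b a), abs_of_nonneg (by linarith : 0 ≤ b m - b a),
      abs_of_nonneg (by linarith : 0 ≤ b c - b m)]
    constructor <;> linarith

theorem hdi_sort (b : Fin 3 → ℝ) : ∃ p : Fin 3 → Fin 3, Function.Injective p ∧
      |b (p 0) - b (p 2)| = |b (p 1) - b (p 2)| + |b (p 0) - b (p 1)| ∧
      |b (p 1) - b (p 2)| ≤ |b (p 0) - b (p 1)| := by
  rcases le_total (b 0) (b 1) with h | h <;> rcases le_total (b 1) (b 2) with h' | h' <;>
    rcases le_total (b 0) (b 2) with h'' | h''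
  · exact hdi_btw b 0 1 2 (by decide) (by decide) h h'
  · exact hdi_btw b 0 1 2 (by decide) (by decide) h h'
  · exact hdi_btw b 0 2 1 (by decide) (by decide) h'' h'
  · exact hdi_btw b 2 0 1 (by decide) (by decide) h'' h
  · exact hdi_btw b 1 0 2 (by decide) (by decide) h h''
  · exact hdi_btw b 1 2 0 (by decide) (by decide) h' h''
  · exact hdi_btw b 2 1 0 (by decide) (by decide) h' h
  · exact hdi_btw b 2 1 0 (by decide) (by decide) h' h

theorem hdi_third : ∀ i j : Fin 3, i ≠ j → ∃ k, k ≠ i ∧ k ≠ j := by decide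

theorem hdi_inj : ∀ i j k : Fin 3, i ≠ j → k ≠ i → k ≠ j → Function.Injective ![k, i, j] := by
  decide

theorem hdi_cov : ∀ i j k : Fin 3, i ≠ j → k ≠ i → k ≠ j → ∀ l : Fin 3, l = k ∨ l = i ∨ l = j := by
  decide

theorem st_HDI (h1 : ST_CU1) : ST_HDI := by
  classical
  refine ⟨40, by norm_num, ?_⟩
  intro K _ _ β a b c κ hCF σ hσ S hS1 hS2
  obtain ⟨-, -, hnorm, hdis, hκ0, hemb⟩ := h1.2 K β a b c κ hCF
  have hE : ∀ τ : Fin 3 → (K →+* ℂ), Function.Injective τ → _ :=
    fun τ hτ => Pool.Helper99.BK.st_EMB3 K hCF.deg τ hτ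
  have hall := (hE σ hσ).1
  have hdis1 : 1 ≤ |((dis a b c : ℤ) : ℝ)| := by
    rw [← Int.cast_abs]
    exact_mod_cast Int.one_le_abs hdis
  have hΔ : 0 ≤ Real.log |((dis a b c : ℤ) : ℝ)| := Real.log_nonneg hdis1
  -- facts for a permuted triple
  have key : ∀ p : Fin 3 → Fin 3, Function.Injective p →
      (Real.log ‖σ (p 0) (κ : K)‖ + Real.log ‖σ (p 1) (κ : K)‖ + Real.log ‖σ (p 2) (κ : K)‖ =
        Real.log |((dis a b c : ℤ) : ℝ)|) ∧
      (S = |Real.log ‖σ (p 0) (κ : K)‖| ∨ S = |Real.log ‖σ (p 1) (κ : K)‖| ∨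
        S = |Real.log ‖σ (p 2) (κ : K)‖|) := by
    intro p hp
    have hτ : Function.Injective (fun i => σ (p i)) := hσ.comp hp
    constructor
    · have h2 := (hE _ hτ).2.1 κ
      rw [Fin.prod_univ_three] at h2
      have h3 : (|(Algebra.norm ℤ κ : ℝ)|) = |((dis a b c : ℤ) : ℝ)| := by
        rw [← Int.cast_abs, ← Int.cast_abs, hnorm]
      rw [h3] at h2
      have hne : ∀ i, ‖σ (p i) (κ : K)‖ ≠ 0 := by
        intro i h
        rw [norm_eq_zero, map_eq_zero] at h
        apply hκ0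
        exact_mod_cast h
      rw [← h2, Real.log_mul (mul_ne_zero (hne 0) (hne 1)) (hne 2), Real.log_mul (hne 0) (hne 1)]
    · obtain ⟨i, hi⟩ := hS2
      obtain ⟨j, rfl⟩ := (Finite.injective_iff_surjective.1 hp) i
      fin_cases j
      · exact Or.inl hi.symm
      · exact Or.inr (Or.inl hi.symm)
      · exact Or.inr (Or.inr hi.symm)
  by_cases hre : ∀ i, (σ i β).im = 0
  · -- all roots are real
    obtain ⟨p, hp, p1, p2⟩ := hdi_sort (fun i => (σ i β).re)
    have hτ : Function.Injective (fun i => σ (p i)) := hσ.comp hp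
    obtain ⟨q1, -, q3, -⟩ := hemb ℂ (fun i => σ (p i)) hτ
    obtain ⟨k1, k2⟩ := key p hp
    have hval : ∀ i, σ i β = (((σ i β).re : ℝ) : ℂ) := by
      intro i
      apply Complex.ext
      · simp
      · rw [hre i]
        simp
    have hsq : ∀ i j k : Fin 3, i ≠ j → i ≠ k → j ≠ k →
        σ (p i) (κ : K) = ((|(σ (p j) β).re - (σ (p k) β).re| ^ 2 : ℝ) : ℂ) := by
      intro i j k h h' h''
      have h5 : (σ (p j) β - σ (p k) β) ^ 2 = σ (p i) (κ : K) := q3 i j k h h' h''
      rw [← h5, sq_abs, hval (p j), hval (p k)]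
      push_cast
      rfl
    have s0 := hsq 0 1 2 (by decide) (by decide) (by decide)
    have s1 := hsq 1 0 2 (by decide) (by decide) (by decide)
    have s2 := hsq 2 0 1 (by decide) (by decide) (by decide)
    obtain ⟨d0, hd0⟩ : ∃ d, d = |(σ (p 1) β).re - (σ (p 2) β).re| := ⟨_, rfl⟩
    obtain ⟨d1, hd1⟩ : ∃ d, d = |(σ (p 0) β).re - (σ (p 2) β).re| := ⟨_, rfl⟩
    obtain ⟨d2, hd2⟩ : ∃ d, d = |(σ (p 0) β).re - (σ (p 1) β).re| := ⟨_, rfl⟩
    rw [← hd0] at s0 p1 p2
    rw [← hd1] at s1 p1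
    rw [← hd2] at s2 p1 p2
    have hd0' : 0 < d0 := by
      rw [hd0, abs_pos, sub_ne_zero]
      intro h
      apply q1 1 2 (by decide)
      change σ (p 1) β = σ (p 2) β
      rw [hval (p 1), hval (p 2), h]
    have n0 : ‖σ (p 0) (κ : K)‖ = d0 ^ 2 := by
      rw [s0, Complex.norm_real, Real.norm_of_nonneg (by positivity)]
    have n1 : ‖σ (p 1) (κ : K)‖ = d1 ^ 2 := by
      rw [s1, Complex.norm_real, Real.norm_of_nonneg (by positivity)]
    have n2 : ‖σ (p 2) (κ : K)‖ = d2 ^ 2 := by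
      rw [s2, Complex.norm_real, Real.norm_of_nonneg (by positivity)]
    rw [n0, n1, n2] at k1 k2
    rcases hdi_real d0 d1 d2 S _ hd0' p1 p2 hΔ k1 k2 with h | ⟨h, h'⟩
    · exact Or.inl h
    · right
      refine ⟨fun i => σ (p i), hτ, fun i => ⟨p i, rfl⟩, Or.inl ?_, ?_, ?_⟩
      · intro i x
        obtain ⟨j, hj⟩ := hall ((starRingEnd ℂ).comp (σ (p i)))
        have h5 : (starRingEnd ℂ) (σ (p i) β) = σ j β := by
          rw [← hj]
          rfl
        have h6 : j = p i := by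
          by_contra hne
          apply (hemb ℂ σ hσ).1 j (p i) hne
          rw [← h5, hval (p i), Complex.conj_ofReal]
        rw [h6] at hj
        have h7 : (starRingEnd ℂ) (σ (p i) x) = σ (p i) x := by
          conv_rhs => rw [← hj]
          rfl
        have h8 := congrArg Complex.im h7
        rw [Complex.conj_im] at h8
        change (σ (p i) x).im = 0
        linarith
      · rw [n0, n1]
        exact h
      · have h9 : σ (p 2) (κ : K) / σ (p 1) (κ : K) - 1 = ((d2 ^ 2 / d1 ^ 2 - 1 : ℝ) : ℂ) := by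
          rw [s2, s1]
          push_cast
          rfl
        rw [h9, Complex.norm_real]
        exact h'
  · -- one real root, two complex conjugate roots
    push Not at hre
    obtain ⟨i, hi⟩ := hre
    obtain ⟨j, hj⟩ := hall ((starRingEnd ℂ).comp (σ i))
    have hjx : ∀ x, σ j x = (starRingEnd ℂ) (σ i x) := by
      intro x
      rw [← hj]
      rfl
    have hij : i ≠ j := by
      intro h
      have := hjx β
      rw [← h] at this
      have h2 := congrArg Complex.im this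
      rw [Complex.conj_im] at h2
      apply hi
      linarith
    obtain ⟨k, hki, hkj⟩ := hdi_third i j hij
    obtain ⟨l, hl⟩ := hall ((starRingEnd ℂ).comp (σ k))
    have hlx : ∀ x, σ l x = (starRingEnd ℂ) (σ k x) := by
      intro x
      rw [← hl]
      rfl
    have hlk : l = k := by
      rcases hdi_cov i j k hij hki hkj l with h | h | h
      · exact h
      · exfalso
        subst h
        apply hkj
        apply hσ
        ext x
        have h1 := hlx x
        have h2 := hjx x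
        rw [h1] at h2
        rw [h2, Complex.conj_conj]
      · exfalso
        subst h
        apply hki
        apply hσ
        ext x
        have h1 := hlx x
        have h2 := hjx x
        rw [h1] at h2
        exact (starRingEnd ℂ).injective h2
    rw [hlk] at hlx
    have hkre : ∀ x, (σ k x).im = 0 := by
      intro x
      have h2 := congrArg Complex.im (hlx x)
      rw [Complex.conj_im] at h2
      linarith
    have hp := hdi_inj i j k hij hki hkj
    have hτ : Function.Injective (fun i' => σ (![k, i, j] i')) := hσ.comp hp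
    obtain ⟨-, -, q3, -⟩ := hemb ℂ (fun i' => σ (![k, i, j] i')) hτ
    obtain ⟨k1, k2⟩ := key ![k, i, j] hp
    have s0 : (σ i β - σ j β) ^ 2 = σ k (κ : K) :=
      q3 0 1 2 (by decide) (by decide) (by decide)
    have s1 : (σ k β - σ j β) ^ 2 = σ i (κ : K) :=
      q3 1 0 2 (by decide) (by decide) (by decide)
    have s2 : (σ k β - σ i β) ^ 2 = σ j (κ : K) :=
      q3 2 0 1 (by decide) (by decide) (by decide)
    have k1' : Real.log ‖σ k (κ : K)‖ + Real.log ‖σ i (κ : K)‖ + Real.log ‖σ j (κ : K)‖ =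
        Real.log |((dis a b c : ℤ) : ℝ)| := k1
    have k2' : S = |Real.log ‖σ k (κ : K)‖| ∨ S = |Real.log ‖σ i (κ : K)‖| ∨
        S = |Real.log ‖σ j (κ : K)‖| := k2
    obtain ⟨v, hv⟩ : ∃ v, v = |(σ i β).im| := ⟨_, rfl⟩
    obtain ⟨ρ, hρ⟩ : ∃ ρ, ρ = ‖σ k β - σ i β‖ := ⟨_, rfl⟩
    have hv0 : 0 < v := by rw [hv, abs_pos]; exact hi
    have hvρ : v ≤ ρ := by
      rw [hv, hρ]
      have h5 := Complex.abs_im_le_norm (σ k β - σ i β)
      rw [Complex.sub_im, hkre β, zero_sub, abs_neg] at h5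
      exact h5
    have hρ0 : 0 < ρ := lt_of_lt_of_le hv0 hvρ
    have hkc : (starRingEnd ℂ) (σ k β) = σ k β := (hlx β).symm
    have hρ' : ‖σ k β - σ j β‖ = ρ := by
      rw [hρ, hjx β]
      conv_lhs => rw [← hkc, ← map_sub]
      exact RCLike.norm_conj _
    have hij2 : ‖σ i β - σ j β‖ = 2 * v := by
      rw [hjx β, Complex.sub_conj, norm_mul, Complex.norm_I, mul_one, Complex.norm_real,
        Real.norm_eq_abs, abs_mul, abs_of_pos (by norm_num : (0 : ℝ) < 2), hv]
    have n0 : ‖σ k (κ : K)‖ = (2 * v) ^ 2 := by rw [← s0, norm_pow, hij2]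
    have n1 : ‖σ i (κ : K)‖ = ρ ^ 2 := by rw [← s1, norm_pow, hρ']
    have n2 : ‖σ j (κ : K)‖ = ρ ^ 2 := by rw [← s2, norm_pow, ← hρ]
    rw [n0, n1, n2] at k1' k2'
    have k3 : S = |Real.log ((2 * v) ^ 2)| ∨ S = |Real.log (ρ ^ 2)| := by
      rcases k2' with h | h | h
      · exact Or.inl h
      · exact Or.inr h
      · exact Or.inr h
    rcases hdi_cplx v ρ S _ hv0 hvρ hΔ k1' k3 with h | ⟨h, h'⟩
    · exact Or.inl h
    · right
      refine ⟨fun i' => σ (![k, i, j] i'), hτ, fun i' => ⟨_, rfl⟩, Or.inr ⟨?_, ?_⟩, ?_, ?_⟩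
      · exact hjx
      · exact hkre
      · change ‖σ k (κ : K)‖ ≠ ‖σ i (κ : K)‖
        rw [n0, n1]
        exact h
      · change ‖σ j (κ : K) / σ i (κ : K) - 1‖ ≤ _
        refine le_trans ?_ h'
        have hne : σ i (κ : K) ≠ 0 := by
          intro h0
          rw [h0, norm_zero] at n1
          have : 0 < ρ ^ 2 := by positivity
          linarith
        have e1 : σ j (κ : K) / σ i (κ : K) - 1 =
            (σ j β - σ i β) * ((σ k β - σ i β) + (σ k β - σ j β)) / σ i (κ : K) := by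
          rw [div_sub_one hne]
          congr 1
          rw [← s1, ← s2]
          ring
        rw [e1, norm_div, norm_mul, n1, ← norm_neg (σ j β - σ i β), neg_sub, hij2]
        have e2 : ‖(σ k β - σ i β) + (σ k β - σ j β)‖ ≤ 2 * ρ := by
          refine (norm_add_le _ _).trans ?_
          rw [hρ', ← hρ]
          linarith
        rw [div_le_div_iff₀ (by positivity) hρ0]
        calc 2 * v * ‖(σ k β - σ i β) + (σ k β - σ j β)‖ * ρ ≤ 2 * v * (2 * ρ) * ρ := by
              refine mul_le_mul_of_nonneg_right ?_ hρ0.le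
              exact mul_le_mul_of_nonneg_left e2 (by linarith)
          _ = 4 * v * ρ ^ 2 := by ring

end Pool.Helper99.SZ
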